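import Pool.Agent.H5.EF.Stm

/-! Crew EF: the topological parts TPO, TPC, TOP. -/

set_option autoImplicit false
open Set Filter Topology

namespace H48.EF
open H5.EF

theorem tendsto_col {α β R : ℝ} {W : ℝ → ℝ → ℝ}
    (hc : ContinuousOn (fun q : ℝ × ℝ => W q.1 q.2) (Icc α β ×ˢ Icc 0 R))
    {γ : ℝ} (hγ : γ ∈ Ico α β) {a : ℝ} (ha : a ∈ Icc 0 R) :
    Tendsto (fun γ' => W γ' a) (𝓝[>] γ) (𝓝 (W γ a)) := by
  have h1 : Tendsto (fun q : ℝ × ℝ => W q.1 q.2) (𝓝[Icc α β ×ˢ Icc 0 R] (γ, a)) (𝓝 (W γ a)) :=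
    hc (γ, a) ⟨⟨hγ.1, hγ.2.le⟩, ha⟩
  have h2 : Tendsto (fun γ' : ℝ => (γ', a)) (𝓝[>] γ) (𝓝[Icc α β ×ˢ Icc 0 R] (γ, a)) := by
    apply tendsto_nhdsWithin_iff.2
    constructor
    · have : Tendsto (fun γ' : ℝ => (γ', a)) (𝓝 γ) (𝓝 (γ, a)) :=
        (Continuous.prodMk_left a).tendsto γ
      exact this.mono_left nhdsWithin_le_nhds
    · filter_upwards [Ioo_mem_nhdsGT hγ.2] with γ' h
      exact ⟨⟨hγ.1.trans h.1.le, h.2.le⟩, ha⟩
  exact h1.comp h2

theorem row_cont {α β R : ℝ} {W : ℝ → ℝ → ℝ}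
    (hc : ContinuousOn (fun q : ℝ × ℝ => W q.1 q.2) (Icc α β ×ˢ Icc 0 R))
    {γ : ℝ} (hγ : γ ∈ Icc α β) : ContinuousOn (W γ) (Icc 0 R) := by
  have h2 : ContinuousOn (fun r : ℝ => (γ, r)) (Icc 0 R) :=
    (Continuous.prodMk_right γ).continuousOn
  exact hc.comp h2 (fun r hr => ⟨hγ, hr⟩)

/-- sign of a function near a simple zero -/
theorem sign_near {f : ℝ → ℝ} {c x : ℝ} (h : HasDerivAt f c x) (hx : f x = 0) (hc : c ≠ 0) :
    ∀ᶠ y in 𝓝[≠] x, 0 < (y - x) * (f y * c) := by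
  have h1 := hasDerivAt_iff_tendsto_slope.1 h
  have h2 : Tendsto (fun y => slope f x y * c) (𝓝[≠] x) (𝓝 (c * c)) := h1.mul_const c
  have h3 : 0 < c * c := mul_self_pos.2 hc
  filter_upwards [h2.eventually (lt_mem_nhds h3), self_mem_nhdsWithin] with y hy hne
  have hne' : y - x ≠ 0 := sub_ne_zero.2 hne
  have h4 : slope f x y * c = (y - x)⁻¹ * (f y * c) := by
    rw [slope_def_field, hx, sub_zero, div_eq_inv_mul, mul_assoc]
  rw [h4] at hy
  have h5 : (y - x) * (f y * c) = (y - x) ^ 2 * ((y - x)⁻¹ * (f y * c)) := by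
    field_simp
  rw [h5]
  positivity

theorem t_TPO : S_TPO := by
  intro α β R U V hR hF γ hγ x hx0 hxR hU ε hε
  have hγ' : γ ∈ Icc α β := ⟨hγ.1, hγ.2.le⟩
  set c := V γ x with hc
  have hc0 : c ≠ 0 := hF.simple γ hγ' x ⟨hx0.le, hxR⟩ hU
  have hs := sign_near (hF.d γ hγ' x ⟨hx0, hxR⟩) hU hc0
  -- a point on the left
  obtain ⟨a, ha1, ha2, ha3⟩ : ∃ a, max 0 (x - ε) < a ∧ a < x ∧ U γ a * c < 0 := by
    have h1 : ∀ᶠ y in 𝓝[<] x, 0 < (y - x) * (U γ y * c) :=
      hs.filter_mono (nhdsWithin_mono _ (fun y hy => ne_of_lt hy))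
    have h2 : ∀ᶠ y in 𝓝[<] x, y ∈ Ioo (max 0 (x - ε)) x :=
      Ioo_mem_nhdsLT (max_lt hx0 (by linarith))
    obtain ⟨a, h3, h4⟩ := (h1.and h2).exists
    refine ⟨a, h4.1, h4.2, ?_⟩
    have h5 : a - x < 0 := by linarith [h4.2]
    by_contra hcon
    push Not at hcon
    exact absurd h3 (not_lt.2 (mul_nonpos_of_nonpos_of_nonneg h5.le hcon))
  have ha0 : 0 < a := (le_max_left _ _).trans_lt ha1
  have haε : x - ε < a := (le_max_right _ _).trans_lt ha1
  have haI : a ∈ Icc 0 R := ⟨ha0.le, by linarith⟩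
  have eva : ∀ᶠ γ' in 𝓝[>] γ, U γ' a * c < 0 :=
    ((tendsto_col hF.cU hγ haI).mul_const c).eventually (gt_mem_nhds ha3)
  -- a point on the right
  obtain ⟨b, hb1, hb2, hb3, evb⟩ : ∃ b, x ≤ b ∧ b ≤ R ∧ b < x + ε ∧
      ∀ᶠ γ' in 𝓝[>] γ, 0 < U γ' b * c := by
    rcases hxR.lt_or_eq with hlt | heq
    · have h1 : ∀ᶠ y in 𝓝[>] x, 0 < (y - x) * (U γ y * c) :=
        hs.filter_mono (nhdsWithin_mono _ (fun y hy => ne_of_gt hy))
      have h2 : ∀ᶠ y in 𝓝[>] x, y ∈ Ioo x (min R (x + ε)) :=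
        Ioo_mem_nhdsGT (lt_min hlt (by linarith))
      obtain ⟨b, h3, h4⟩ := (h1.and h2).exists
      have h6 : b < R := h4.2.trans_le (min_le_left _ _)
      have h7 : b < x + ε := h4.2.trans_le (min_le_right _ _)
      have h5 : 0 < b - x := by linarith [h4.1]
      have h8 : 0 < U γ b * c := by
        by_contra hcon
        push Not at hcon
        exact absurd h3 (not_lt.2 (mul_nonpos_of_nonneg_of_nonpos h5.le hcon))
      refine ⟨b, h4.1.le, h6.le, h7, ?_⟩
      exact ((tendsto_col hF.cU hγ ⟨by linarith [h4.1], h6.le⟩).mul_const c).eventually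
        (lt_mem_nhds h8)
    · refine ⟨x, le_rfl, hxR, by linarith, ?_⟩
      have := hF.cross γ hγ (by rw [← heq]; exact hU)
      rw [← heq] at this
      exact this
  have evI : ∀ᶠ γ' in 𝓝[>] γ, γ' ∈ Icc α β := by
    filter_upwards [Ioo_mem_nhdsGT hγ.2] with γ' h
    exact ⟨hγ.1.trans h.1.le, h.2.le⟩
  filter_upwards [eva, evb, evI] with γ' h1 h2 h3
  have hcont : ContinuousOn (fun r => U γ' r * c) (Icc a b) :=
    ((row_cont hF.cU h3).mono (Icc_subset_Icc ha0.le hb2)).mul continuousOn_const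
  have hab : a ≤ b := by linarith
  obtain ⟨y, hy, hy0⟩ := intermediate_value_Icc hab hcont ⟨h1.le, h2.le⟩
  have hy0' : U γ' y = 0 := by
    rcases mul_eq_zero.1 hy0 with h | h
    · exact h
    · exact absurd h hc0
  refine ⟨y, ha0.trans_le hy.1, hy.2.trans hb2, ?_, hy0'⟩
  rw [abs_lt]
  constructor <;> linarith [hy.1, hy.2]

theorem le_encard_iff {s : Set ℝ} {k : ℕ} :
    (k : ℕ∞) ≤ s.encard ↔ ∃ f : Fin k → ℝ, Function.Injective f ∧ ∀ i, f i ∈ s := by
  constructor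
  · intro h
    obtain ⟨t, hts, ht⟩ := Set.exists_subset_encard_eq h
    have htf : t.Finite := Set.finite_of_encard_eq_coe ht
    have hcard : htf.toFinset.card = k := by
      have := htf.encard_eq_coe_toFinset_card
      rw [ht] at this
      exact_mod_cast this.symm
    let e := htf.toFinset.equivFinOfCardEq hcard
    refine ⟨fun i => (e.symm i : ℝ), ?_, fun i => ?_⟩
    · intro i j hij
      exact e.symm.injective (Subtype.ext hij)
    · exact hts (htf.mem_toFinset.1 (e.symm i).2)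
  · rintro ⟨f, hf, hfs⟩
    have h1 : (Set.range f).encard = k := by
      rw [← Set.image_univ, hf.encard_image, Set.encard_univ]
      simp
    rw [← h1]
    exact Set.encard_le_encard (by rintro _ ⟨i, rfl⟩; exact hfs i)

theorem t_TPC : S_TPC := by
  intro α β R U V hR hF k
  apply IsSeqClosed.isClosed
  intro γs γ hγs hlim
  have hγI : γ ∈ Icc α β := isClosed_Icc.mem_of_tendsto hlim (Eventually.of_forall fun j => (hγs j).1)
  refine ⟨hγI, ?_⟩
  have hex : ∀ j, ∃ f : Fin k → ℝ, Function.Injective f ∧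
      ∀ i, f i ∈ {r : ℝ | 0 < r ∧ r ≤ R ∧ U (γs j) r = 0} := fun j =>
    le_encard_iff.1 (hγs j).2
  choose f hfi hfm using hex
  have hcomp : IsCompact (Set.pi Set.univ (fun _ : Fin k => Icc (0 : ℝ) R)) :=
    isCompact_univ_pi fun _ => isCompact_Icc
  have hfin : ∀ j, f j ∈ Set.pi Set.univ (fun _ : Fin k => Icc (0 : ℝ) R) := fun j i _ =>
    ⟨(hfm j i).1.le, (hfm j i).2.1⟩
  obtain ⟨x, hx, φ, hφ, hxl⟩ := hcomp.tendsto_subseq hfin
  have hxi : ∀ i, Tendsto (fun j => f (φ j) i) atTop (𝓝 (x i)) := fun i =>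
    (tendsto_pi_nhds.1 hxl) i
  have hγφ : Tendsto (fun j => γs (φ j)) atTop (𝓝 γ) := hlim.comp hφ.tendsto_atTop
  have hxI : ∀ i, x i ∈ Icc 0 R := fun i => hx i (Set.mem_univ i)
  -- limits of values
  have hW : ∀ W : ℝ → ℝ → ℝ, ContinuousOn (fun q : ℝ × ℝ => W q.1 q.2) (Icc α β ×ˢ Icc 0 R) →
      ∀ (y : ℕ → ℝ) (z : ℝ), (∀ j, y j ∈ Icc 0 R) → z ∈ Icc 0 R → Tendsto y atTop (𝓝 z) →
      (∀ j, W (γs (φ j)) (y j) = 0) → W γ z = 0 := by
    intro W hWc y z hy hz hyz hW0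
    have h1 : Tendsto (fun q : ℝ × ℝ => W q.1 q.2) (𝓝[Icc α β ×ˢ Icc 0 R] (γ, z)) (𝓝 (W γ z)) :=
      hWc (γ, z) ⟨hγI, hz⟩
    have h2 : Tendsto (fun j => (γs (φ j), y j)) atTop (𝓝[Icc α β ×ˢ Icc 0 R] (γ, z)) := by
      apply tendsto_nhdsWithin_iff.2
      exact ⟨hγφ.prodMk_nhds hyz, Eventually.of_forall fun j => ⟨(hγs (φ j)).1, hy j⟩⟩
    have h3 := h1.comp h2
    have h4 : ((fun q : ℝ × ℝ => W q.1 q.2) ∘ fun j => (γs (φ j), y j)) = fun _ => (0 : ℝ) := by
      funext j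
      exact hW0 j
    rw [h4] at h3
    exact tendsto_nhds_unique h3 tendsto_const_nhds
  have hUx : ∀ i, U γ (x i) = 0 := fun i =>
    hW U hF.cU (fun j => f (φ j) i) (x i)
      (fun j => ⟨(hfm _ i).1.le, (hfm _ i).2.1⟩) (hxI i) (hxi i) (fun j => (hfm _ i).2.2)
  apply le_encard_iff.2
  refine ⟨x, ?_, fun i => ⟨?_, (hxI i).2, hUx i⟩⟩
  · intro i l hil
    by_contra hne
    -- Rolle
    have hR : ∀ j, ∃ y, y ∈ Icc 0 R ∧ |y - x i| ≤ |f (φ j) i - x i| + |f (φ j) l - x i| ∧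
        V (γs (φ j)) y = 0 := by
      intro j
      have key : ∀ a b : ℝ, 0 < a → a < b → b ≤ R → U (γs (φ j)) a = 0 → U (γs (φ j)) b = 0 →
          ∃ y, y ∈ Ioo a b ∧ V (γs (φ j)) y = 0 := by
        intro a b ha hab hb h1 h2
        obtain ⟨y, hy, hy0⟩ := exists_hasDerivAt_eq_zero (f := U (γs (φ j)))
          (f' := V (γs (φ j))) hab
          ((row_cont hF.cU (hγs (φ j)).1).mono (Icc_subset_Icc ha.le hb)) (by rw [h1, h2])
          (fun r hr => hF.d _ (hγs (φ j)).1 r ⟨ha.trans hr.1, hr.2.le.trans hb⟩)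
        exact ⟨y, hy, hy0⟩
      have hi := hfm (φ j) i
      have hl := hfm (φ j) l
      have hd : f (φ j) i ≠ f (φ j) l := fun h => hne (hfi _ h)
      rcases lt_or_gt_of_ne hd with h | h
      · obtain ⟨y, hy, hy0⟩ := key _ _ hi.1 h hl.2.1 hi.2.2 hl.2.2
        refine ⟨y, ⟨hi.1.le.trans hy.1.le, hy.2.le.trans hl.2.1⟩, ?_, hy0⟩
        rw [abs_le]
        constructor
        · have := neg_abs_le (f (φ j) i - x i)
          have h3 := abs_nonneg (f (φ j) l - x i)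
          linarith [hy.1]
        · have := le_abs_self (f (φ j) l - x i)
          have h3 := abs_nonneg (f (φ j) i - x i)
          linarith [hy.2]
      · obtain ⟨y, hy, hy0⟩ := key _ _ hl.1 h hi.2.1 hl.2.2 hi.2.2
        refine ⟨y, ⟨hl.1.le.trans hy.1.le, hy.2.le.trans hi.2.1⟩, ?_, hy0⟩
        rw [abs_le]
        constructor
        · have := neg_abs_le (f (φ j) l - x i)
          have h3 := abs_nonneg (f (φ j) i - x i)
          linarith [hy.1]
        · have := le_abs_self (f (φ j) i - x i)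
          have h3 := abs_nonneg (f (φ j) l - x i)
          linarith [hy.2]
    choose y hyI hyd hy0 using hR
    have hyl : Tendsto y atTop (𝓝 (x i)) := by
      have h1 : Tendsto (fun j => |f (φ j) i - x i| + |f (φ j) l - x i|) atTop (𝓝 0) := by
        have e1 : Tendsto (fun j => |f (φ j) i - x i|) atTop (𝓝 |x i - x i|) :=
          ((hxi i).sub_const _).abs
        have e2 : Tendsto (fun j => |f (φ j) l - x i|) atTop (𝓝 |x l - x i|) :=
          ((hxi l).sub_const _).abs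
        rw [sub_self, abs_zero] at e1
        rw [hil, sub_self, abs_zero] at e2
        rw [hil] at e1 ⊢
        simpa using e1.add e2
      rw [tendsto_iff_dist_tendsto_zero]
      exact squeeze_zero (fun _ => dist_nonneg) (fun j => by rw [Real.dist_eq]; exact hyd j) h1
    exact hF.simple γ hγI (x i) (hxI i) (hUx i) (hW V hF.cV y (x i) hyI (hxI i) hyl hy0)
  · have h0 := (hxI i).1
    rcases h0.lt_or_eq with h | h
    · exact h
    · exfalso
      have h1 := hUx i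
      rw [← h] at h1
      exact hF.zero γ hγI h1

theorem t_TOP (hTPO : S_TPO) (hTPC : S_TPC) : S_TOP := by
  intro α β R U V hR hαβ hF
  have main : ∀ k : ℕ, (k : ℕ∞) ≤ cnt R (U α) → (k : ℕ∞) ≤ cnt R (U β) := by
    intro k hk
    set S : Set ℝ := {γ : ℝ | γ ∈ Icc α β ∧ (k : ℕ∞) ≤ cnt R (U γ)} with hS
    have hSc : IsClosed S := hTPC α β R U V hR hF k
    have hsub : Icc α β ⊆ S := by
      apply IsClosed.Icc_subset_of_forall_mem_nhdsWithin
      · exact hSc.inter isClosed_Icc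
      · exact ⟨⟨le_rfl, hαβ⟩, hk⟩
      · rintro γ ⟨⟨hγI, hγk⟩, hγ⟩
        obtain ⟨x, hxi, hxm⟩ := le_encard_iff.1 hγk
        obtain ⟨ε, hε, hsep⟩ : ∃ ε > 0, ∀ i l : Fin k, i ≠ l → 2 * ε ≤ |x i - x l| := by
          have h1 : ∀ᶠ ε in 𝓝[>] (0 : ℝ), ∀ i l : Fin k, i ≠ l → 2 * ε ≤ |x i - x l| := by
            rw [eventually_all]
            intro i
            rw [eventually_all]
            intro l
            by_cases hil : i = l
            · exact Eventually.of_forall fun _ h => absurd hil h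
            · have hpos : 0 < |x i - x l| := abs_pos.2 (sub_ne_zero.2 fun h => hil (hxi h))
              filter_upwards [Ioo_mem_nhdsGT (half_pos hpos)] with ε h _
              linarith [h.2]
          obtain ⟨ε, h2, h3⟩ := (h1.and self_mem_nhdsWithin).exists
          exact ⟨ε, h3, h2⟩
        have h1 : ∀ᶠ γ' in 𝓝[>] γ, ∀ i : Fin k,
            ∃ y, 0 < y ∧ y ≤ R ∧ |y - x i| < ε ∧ U γ' y = 0 := by
          rw [eventually_all]
          intro i
          exact hTPO α β R U V hR hF γ hγ (x i) (hxm i).1 (hxm i).2.1 (hxm i).2.2 ε hε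
        filter_upwards [h1, Ioo_mem_nhdsGT hγ.2] with γ' h2 h3
        choose y hy0 hyR hyd hyU using h2
        refine ⟨⟨hγ.1.trans h3.1.le, h3.2.le⟩, ?_⟩
        apply le_encard_iff.2
        refine ⟨y, ?_, fun i => ⟨hy0 i, hyR i, hyU i⟩⟩
        intro i l hil
        by_contra hne
        have h4 := hsep i l hne
        have h5 := hyd i
        have h6 := hyd l
        rw [hil] at h5
        have h7 : |x i - x l| ≤ |y l - x i| + |y l - x l| := by
          have := abs_sub_le (x i) (y l) (x l)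
          rw [abs_sub_comm (x i) (y l)] at this
          exact this
        linarith
    exact (hsub ⟨hαβ, le_rfl⟩).2
  by_contra hcon
  push Not at hcon
  obtain ⟨k, hk⟩ := ENat.ne_top_iff_exists.1 (ne_top_of_lt hcon)
  have h1 : ((k + 1 : ℕ) : ℕ∞) ≤ cnt R (U α) := by
    rw [← hk] at hcon
    push_cast
    exact Order.add_one_le_of_lt hcon
  have h2 := main (k + 1) h1
  rw [← hk] at h2
  have h3 : k + 1 ≤ k := by exact_mod_cast h2
  omega

end H48.EF
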